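import Pool.Agent.ASD.Stmts8
import Pool.Agent.Helper20_PP.Rst

/-!
# Squad ASD, row LNJ: the inertial groups of a pair
-/

open scoped BigOperators

set_option autoImplicit false

noncomputable section

namespace Pool.Agent.PP.SD.H86

open Pool.Agent.Helper51_AWC Pool.Agent.Helper79_WRA Pool.Agent.PP Pool.Agent.PP.KF
open Pool.Agent.PP.K9 Pool.Agent.PP.K9.H97 Pool.Agent.PP.H75 Pool.Agent.PP.T3 Pool.Agent.PP.SO
open Pool.Agent.PP.SD

attribute [local instance] Ideal.Quotient.field

/-- transport of the number of modular characters along an isomorphism -/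
theorem lnj_ln {F X Y : Type} [Field F] [Group X] [Group Y] (e : X ≃* Y) (a : X → F) (b : Y → F)
    (hab : ∀ x, a x = b (e x)) : ln a = ln b := by
  symm
  unfold ln
  have hact : ∀ f : Y → F, ∀ x : X, actF a (fun t : X => f (e t)) x = actF b f (e x) := by
    intro f x
    unfold actF
    rw [← finsum_comp_equiv e.toEquiv]
    apply finsum_congr
    intro s
    change a s * f (e (s * x)) = b (e s) * f (e s * e x)
    rw [hab, map_mul]
  refine Set.ncard_congr (fun f _ => fun t : X => f (e t)) ?_ ?_ ?_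
  · rintro f ⟨h1, h2⟩
    refine ⟨(H20.IBr_equiv e).2 h1, ?_⟩
    funext t
    rw [hact, h2]
  · intro f f' _ _ he
    funext y
    have h1 := congrFun he (e.symm y)
    simp only [MulEquiv.apply_symm_apply] at h1
    exact h1
  · rintro f ⟨h1, h2⟩
    have e1 : (fun t : X => (fun y : Y => f (e.symm y)) (e t)) = f := by
      funext t
      change f (e.symm (e t)) = f t
      rw [e.symm_apply_apply]
    refine ⟨fun y => f (e.symm y), ⟨?_, ?_⟩, e1⟩
    · rw [← H20.IBr_equiv e, e1]
      exact h1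
    · funext y
      have h3 := hact (fun y : Y => f (e.symm y)) (e.symm y)
      rw [e1, h2, e.apply_symm_apply] at h3
      exact h3.symm

/-- an element acting on the image as an automorphism normalises the image -/
theorem lnj_nor {V₀ G : Type} [CommGroup V₀] [Group G] (i : V₀ →* G) (σ : MulAut V₀) (t : G)
    (h : ∀ v, t * i v * t⁻¹ = i (σ v)) : t ∈ Subgroup.normalizer (i.range : Set G) := by
  rw [Subgroup.mem_normalizer_iff]
  intro x
  constructor
  · rintro ⟨v, rfl⟩
    exact ⟨σ v, (h v).symm⟩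
  · rintro ⟨w, hw⟩
    refine ⟨σ⁻¹ w, ?_⟩
    have h1 := h (σ⁻¹ w)
    have h2 : σ (σ⁻¹ w) = w := MulAut.apply_inv_self V₀ σ w
    rw [h2, hw] at h1
    exact mul_left_cancel (mul_right_cancel h1)

theorem lnj : LnjStmt := by
  intro ℓ _ M _ hM V₀ G H _ _ _ _ _ _ E₀ A B B' j hB hB' hP
  -- the centraliser of `V` is in the image of `j`
  have hcent : ∀ x, x ∈ Subgroup.centralizer (B.i.range : Set G) → ∃ h, j h = x := by
    intro x hx
    apply hP.cen x
    unfold Bk.C
    rw [Subgroup.mem_centralizer_iff] at hx ⊢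
    rintro y ⟨v, -, rfl⟩
    exact hx _ ⟨v, rfl⟩
  have hgsupp : ∀ x, x ∉ Set.range j → B.g x = 0 := by
    intro x hx
    apply hB.ld.gam.supp
    intro h
    exact hx (hcent x h)
  have hfwd : ∀ t ∈ Tg B'.i.range B'.g, j t ∈ Tg B.i.range B.g := by
    intro t ht
    obtain ⟨σ, -, hσ⟩ := hB'.act t ht
    refine ⟨lnj_nor B.i σ (j t) fun v => ?_, fun x => ?_⟩
    · rw [← hP.i, ← hP.i, ← map_mul, ← map_inv, ← map_mul, hσ]
    · by_cases hx : x ∈ Set.range j
      · obtain ⟨h, rfl⟩ := hx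
        rw [← map_mul, ← map_inv, ← map_mul, ← hP.g, ← hP.g]
        exact ht.2 h
      · rw [hgsupp x hx, hgsupp]
        rintro ⟨h, hh⟩
        apply hx
        refine ⟨t⁻¹ * h * t, ?_⟩
        rw [map_mul, map_mul, map_inv, hh]
        group
  have hbwd : ∀ t ∈ Tg B.i.range B.g, ∃ t' ∈ Tg B'.i.range B'.g, j t' = t := by
    intro t ht
    obtain ⟨σ, hσE, hσ⟩ := hB.act t ht
    obtain ⟨t₀, ht₀, hσ₀⟩ := hB'.sur σ hσE
    have hc : (j t₀)⁻¹ * t ∈ Subgroup.centralizer (B.i.range : Set G) := by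
      rw [Subgroup.mem_centralizer_iff]
      rintro y ⟨v, rfl⟩
      have h1 : j t₀ * B.i v * (j t₀)⁻¹ = t * B.i v * t⁻¹ := by
        rw [hσ, ← hP.i, ← hP.i, ← map_mul, ← map_inv, ← map_mul, hσ₀]
      have h2 : t * B.i v = j t₀ * B.i v * (j t₀)⁻¹ * t := by
        rw [h1]
        group
      rw [mul_assoc (j t₀)⁻¹, h2]
      group
    obtain ⟨h, hh⟩ := hcent _ hc
    have hj : j (t₀ * h) = t := by
      rw [map_mul, hh]
      group
    refine ⟨t₀ * h, ⟨lnj_nor B'.i σ _ fun v => ?_, fun x => ?_⟩, hj⟩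
    · apply hP.inj
      rw [map_mul, map_mul, map_inv, hj, hP.i, hP.i, hσ]
    · rw [hP.g, hP.g, map_mul, map_mul, map_inv, hj]
      exact ht.2 _
  let f : Tg B'.i.range B'.g →* Tg B.i.range B.g :=
    { toFun := fun t => ⟨j (t : H), hfwd t t.2⟩
      map_one' := Subtype.ext (map_one j)
      map_mul' := fun a b => Subtype.ext (map_mul j (a : H) (b : H)) }
  have hf : Function.Bijective f := by
    constructor
    · intro a b hab
      exact Subtype.ext (hP.inj (congrArg Subtype.val hab))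
    · rintro ⟨t, ht⟩
      obtain ⟨t', ht', hj⟩ := hbwd t ht
      exact ⟨⟨t', ht'⟩, Subtype.ext hj⟩
  unfold lT
  refine lnj_ln (MulEquiv.ofBijective f hf) _ _ fun x => ?_
  exact hP.g x

end Pool.Agent.PP.SD.H86
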