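import Pool.Agent.ASD.Stmts3
import Pool.Agent.Helper79_ASO.DGV

/-!
# Squad ASD, row DGD: the `ℓ`-parts of the degrees for `Rw`
-/

open scoped BigOperators

set_option autoImplicit false

noncomputable section

namespace Pool.Agent.PP.SD.H86

open Pool.Agent.Helper51_AWC Pool.Agent.Helper79_WRA Pool.Agent.PP Pool.Agent.PP.KF
open Pool.Agent.PP.K9 Pool.Agent.PP.K9.H97 Pool.Agent.PP.H75 Pool.Agent.PP.T3 Pool.Agent.PP.SO
open Pool.Agent.PP.SD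

attribute [local instance] Ideal.Quotient.field

theorem rw_top {ℓ : ℕ} [Fact ℓ.Prime] {V₀ : Type} [CommGroup V₀] [Finite V₀]
    {E₀ : Subgroup (MulAut V₀)} (hF : Fq ℓ V₀ E₀) : Rw E₀ (⊤ : Subgroup V₀) := by
  constructor
  · intro h
    have hℓ : ℓ.Prime := Fact.out
    have h1 : Nat.card (⊤ : Subgroup V₀) = 1 := by rw [h]; simp
    rw [Subgroup.card_top, hF.cd] at h1
    have := hℓ.one_lt
    nlinarith
  · intro σ _ h
    ext v
    exact h v (Subgroup.mem_top v)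

theorem dgd (hta : SO.HTaStmt) : DgdStmt := by
  intro ℓ _ M _ hM V₀ G _ _ _ _ E₀ hF B hB W hW
  have hℓ : ℓ.Prime := Fact.out
  have hsb := hB.toSb
  have hb := SO.H79.b_top hsb
  have hD := hB.dg ⊤ (rw_top hF)
  have hDW := hB.dg W hW
  rw [hb, SO.H79.C_top B] at hD
  obtain ⟨m, hm, hc⟩ := hta ℓ M hM G B.e B.i.range B.g hsb.ld (B.D ⊤) hD
  rw [← SO.H79.C_top B] at hc
  have hV : Nat.card B.i.range = ℓ ^ 2 := by
    rw [← hF.cd]
    exact (Nat.card_congr (MonoidHom.ofInjective hsb.inj).toEquiv).symm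
  rw [hV] at hc
  obtain ⟨q, hq, hU⟩ := hB.un W hW
  have hs := hB.sg W hW
  have hS2 : (B.S W : ℚ) * B.S W = 1 := by
    rcases hs with h | h <;> rw [h] <;> norm_num
  have hS3 : (B.S W : ℂ) * B.S W = 1 := by exact_mod_cast hS2
  have hℓ0 : (ℓ : ℂ) ≠ 0 := by exact_mod_cast hℓ.ne_zero
  have hm0 : (m : ℂ) ≠ 0 := by
    intro h
    have : m = 0 := by exact_mod_cast h
    exact hm (this ▸ dvd_zero ℓ)
  have hD0 : (B.D ⊤ : ℂ) ≠ 0 := by exact_mod_cast hD.1.ne'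
  have hDW0 : (B.D W : ℂ) ≠ 0 := by exact_mod_cast hDW.1.ne'
  have hcW : (Nat.card (B.C W) : ℂ) ≠ 0 := by exact_mod_cast Nat.card_pos.ne'
  have hcc : (Nat.card (B.C ⊤) : ℂ) = ℓ ^ 2 * B.D ⊤ * m := by exact_mod_cast hc
  have hUc : ((1 + ℓ * q : ℚ) : ℂ) =
      B.S W * Nat.card (B.C W) * B.D ⊤ / (Nat.card (B.C ⊤) * B.D W) := by
    rw [← hU]
    unfold Bk.U
    push_cast
    rfl
  have hU0 : ((1 + ℓ * q : ℚ) : ℂ) = B.S W * (Nat.card (B.C W) / (ℓ ^ 2 * B.D W)) * (m : ℂ)⁻¹ := by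
    rw [hUc, hcc]
    field_simp
  have hS0 : (B.S W : ℂ) ≠ 0 := by
    intro h
    rw [h] at hS3
    norm_num at hS3
  have e1 : (Nat.card (B.C W) / (ℓ ^ 2 * B.D W) : ℂ) = B.S W * ((1 + ℓ * q : ℚ) : ℂ) * m := by
    rw [hU0]
    have : (B.S W : ℂ) * (B.S W * (Nat.card (B.C W) / (ℓ ^ 2 * B.D W)) * (m : ℂ)⁻¹) * m =
        (B.S W * B.S W) * (Nat.card (B.C W) / (ℓ ^ 2 * B.D W)) * ((m : ℂ)⁻¹ * m) := by ring
    rw [this, hS3, inv_mul_cancel₀ hm0, one_mul, mul_one]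
  have e2 : ((ℓ ^ 2 * B.D W / Nat.card (B.C W) : ℂ)) =
      B.S W * (((1 + ℓ * q : ℚ) : ℂ))⁻¹ * (m : ℂ)⁻¹ := by
    have h1 : ((ℓ ^ 2 * B.D W / Nat.card (B.C W) : ℂ)) =
        (Nat.card (B.C W) / (ℓ ^ 2 * B.D W) : ℂ)⁻¹ := by rw [inv_div]
    have h2 : (B.S W : ℂ)⁻¹ = B.S W := by
      rw [inv_eq_iff_eq_inv]
      exact (inv_eq_of_mul_eq_one_left hS3).symm
    rw [h1, e1, mul_inv, mul_inv, h2]
  refine ⟨?_, ?_⟩
  · rw [e2]
    exact Subring.mul_mem _ (Subring.mul_mem _ (intCast_mem (RM M) _) (SO.H79.rl_inv hM hq))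
      (SO.H79.inv_mem hℓ hM hm)
  · rw [e1]
    refine Subring.mul_mem _ (Subring.mul_mem _ (intCast_mem (RM M) _) ?_)
      (natCast_mem (RM M) _)
    push_cast
    exact Subring.add_mem _ (Subring.one_mem _) (Subring.mul_mem _ (natCast_mem (RM M) _)
      (SO.H79.rl_mem hM hq))

end Pool.Agent.PP.SD.H86
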