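import Pool.Agent.ASD.Stmts5
import Pool.Agent.ASD.Stmts3

/-!
# Squad ASD, row F3D: the part of `F₁₃`
-/

open scoped BigOperators

set_option autoImplicit false

noncomputable section

namespace Pool.Agent.PP.SD.H86

open Pool.Agent.Helper51_AWC Pool.Agent.Helper79_WRA Pool.Agent.PP Pool.Agent.PP.KF
open Pool.Agent.PP.K9 Pool.Agent.PP.K9.H97 Pool.Agent.PP.H75 Pool.Agent.PP.T3 Pool.Agent.PP.SO
open Pool.Agent.PP.SD

attribute [local instance] Ideal.Quotient.field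

theorem f3d (dix : DixStmt) (mxa : MxaStmt) (mxb : MxbStmt) (wtd : WtdStmt) (mbi : SO.MbiStmt) :
    F3dStmt := by
  intro ℓ _ M _ hM hℓ V₀ G _ _ _ _ E₀ A₁ A₂ hD B hB n m hPE c d hc hd hc1 hd1 F₁₃ hF
  obtain ⟨hRw, ⟨hA1, hA2, -, -, hA12, hsub1, hsub2⟩, hk, -⟩ := dix ℓ V₀ E₀ A₁ A₂ hD
  obtain ⟨hzc, hkc, -, -, -⟩ := hk c hc hc1
  obtain ⟨hzd, hkd, -, -, -⟩ := hk d hd hd1
  have hfin : Finite (Set (SO.SS n V₀)) := inferInstance
  have hmobp : ∀ L : Set (SO.SS n V₀), pL L ≤ A₂ → mob F₁₃ L = 0 := by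
    intro L hL
    refine (mbi (SO.SS n V₀) F₁₃).2.1 L fun T hT => hF T (Or.inl fun s hs => ?_)
    exact hL (Subgroup.subset_closure ⟨s, hT hs, rfl⟩)
  have hmobq : ∀ L : Set (SO.SS n V₀), qL L ≤ A₂ → mob F₁₃ L = 0 := by
    intro L hL
    refine (mbi (SO.SS n V₀) F₁₃).2.1 L fun T hT => hF T (Or.inr fun s hs => ?_)
    exact hL (Subgroup.subset_closure ⟨s, hT hs, rfl⟩)
  have hkf1c : kf E₀ A₁ c = 1 := by
    unfold kf
    rw [if_pos (le_of_eq hzc.symm)]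
  have hkf1d : kf E₀ A₁ d = 1 := by
    unfold kf
    rw [if_pos (le_of_eq hzd.symm)]
  have hkfc : ∀ W : Subgroup V₀, W ≠ ⊥ → W ≠ A₁ → kf E₀ W c = (kE E₀ c : ℚ)⁻¹ := by
    intro W h1 h2
    unfold kf
    rw [if_neg]
    intro h
    rw [hzc] at h
    exact (hsub1 W h).elim h1 h2
  have hkfd : ∀ W : Subgroup V₀, W ≠ ⊥ → W ≠ A₁ → kf E₀ W d = (kE E₀ d : ℚ)⁻¹ := by
    intro W h1 h2
    unfold kf
    rw [if_neg]
    intro h
    rw [hzd] at h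
    exact (hsub1 W h).elim h1 h2
  have hA1A2 : ¬ A₁ ≤ A₂ := fun h => (hsub2 A₁ h).elim hA1 hA12
  set S1 : Set (Set (SO.SS n V₀)) := {L | pL L = A₁ ∧ qL L = A₁} with hS1
  set S2 : Set (Set (SO.SS n V₀)) := {L | pL L ≠ ⊥ ∧ pL L ≠ A₂ ∧ qL L ≠ ⊥ ∧ qL L ≠ A₂ ∧
    ¬ (pL L = A₁ ∧ qL L = A₁)} with hS2
  set κ : ℂ := ((kE E₀ c : ℂ) * kE E₀ d)⁻¹ with hκ
  have key : ∀ L : Set (SO.SS n V₀),
      (mob F₁₃ L : ℚ) * ((kf E₀ (pL L) c * kf E₀ (qL L) d : ℚ) : ℂ) * W13 B m c d L =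
      κ * (S2.indicator (fun L => ((mob F₁₃ L * P13 E₀ B.U c d L : ℚ) : ℂ)) L) +
        S1.indicator (fun L => ((mob F₁₃ L : ℚ) : ℂ) * W13 B m c d L) L := by
    intro L
    by_cases hp : pL L ≤ A₂
    · have hn1 : L ∉ S1 := fun h => hA1A2 (h.1 ▸ hp)
      have hn2 : L ∉ S2 := fun h => (hsub2 _ hp).elim h.1 h.2.1
      rw [Set.indicator_of_notMem hn1, Set.indicator_of_notMem hn2, hmobp L hp]
      simp
    by_cases hq : qL L ≤ A₂
    · have hn1 : L ∉ S1 := fun h => hA1A2 (h.2 ▸ hq)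
      have hn2 : L ∉ S2 := fun h => (hsub2 _ hq).elim h.2.2.1 h.2.2.2.1
      rw [Set.indicator_of_notMem hn1, Set.indicator_of_notMem hn2, hmobq L hq]
      simp
    have hp0 : pL L ≠ ⊥ := fun h => hp (h ▸ bot_le)
    have hp2 : pL L ≠ A₂ := fun h => hp (le_of_eq h)
    have hq0 : qL L ≠ ⊥ := fun h => hq (h ▸ bot_le)
    have hq2 : qL L ≠ A₂ := fun h => hq (le_of_eq h)
    by_cases hp1 : pL L = A₁
    · by_cases hq1 : qL L = A₁
      · have hm1 : L ∈ S1 := ⟨hp1, hq1⟩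
        have hn2 : L ∉ S2 := fun h => h.2.2.2.2 ⟨hp1, hq1⟩
        rw [Set.indicator_of_mem hm1, Set.indicator_of_notMem hn2, hp1, hq1, hkf1c, hkf1d]
        simp
      · have hn1 : L ∉ S1 := fun h => hq1 h.2
        have hm2 : L ∈ S2 := ⟨hp0, hp2, hq0, hq2, fun h => hq1 h.2⟩
        have hW := mxa ℓ M hM hℓ V₀ G E₀ hD.toFq B hB n m hPE c d L (hp1 ▸ hc) hp0
          (hRw _ ⟨hq0, hq1, hq2⟩)
        rw [Set.indicator_of_notMem hn1, Set.indicator_of_mem hm2, hW, hp1, ← hkc, hkf1c,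
          hkfd _ hq0 hq1, hκ]
        push_cast
        rw [mul_inv]
        ring
    · by_cases hq1 : qL L = A₁
      · have hn1 : L ∉ S1 := fun h => hp1 h.1
        have hm2 : L ∈ S2 := ⟨hp0, hp2, hq0, hq2, fun h => hp1 h.1⟩
        have hW := mxb ℓ M hM hℓ V₀ G E₀ hD.toFq B hB n m hPE c d L (hq1 ▸ hd) hq0
          (hRw _ ⟨hp0, hp1, hp2⟩)
        rw [Set.indicator_of_notMem hn1, Set.indicator_of_mem hm2, hW, hq1, ← hkd, hkf1d,
          hkfc _ hp0 hp1, hκ]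
        push_cast
        rw [mul_inv]
        ring
      · have hn1 : L ∉ S1 := fun h => hp1 h.1
        have hm2 : L ∈ S2 := ⟨hp0, hp2, hq0, hq2, fun h => hp1 h.1⟩
        have hW := wtd ℓ M hM hℓ V₀ G E₀ hD.toFq B hB n m hPE c d L
          (hRw _ ⟨hp0, hp1, hp2⟩) (hRw _ ⟨hq0, hq1, hq2⟩)
        rw [Set.indicator_of_notMem hn1, Set.indicator_of_mem hm2, hW, hkfc _ hp0 hp1,
          hkfd _ hq0 hq1, hκ]
        push_cast
        rw [mul_inv]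
        ring
  rw [finsum_congr key, finsum_add_distrib (Set.toFinite _) (Set.toFinite _)]
  congr 1
  · refine (mul_finsum _ κ).symm.trans ?_
    congr 1
    rw [← finsum_mem_def]
    unfold PX13
    rw [finsum_mem_eq_finite_toFinset_sum _ (Set.toFinite S2),
      finsum_mem_eq_finite_toFinset_sum _ (Set.toFinite _)]
    push_cast
    rfl
  · rw [← finsum_mem_def]
    rfl

end Pool.Agent.PP.SD.H86
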