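import Pool.Agent.ASD.Stmts5
import Pool.Agent.ASD.Stmts3

/-!
# Squad ASD, row FID: the relation
-/

open scoped BigOperators

set_option autoImplicit false

noncomputable section

namespace Pool.Agent.PP.SD.H86

open Pool.Agent.Helper51_AWC Pool.Agent.Helper79_WRA Pool.Agent.PP Pool.Agent.PP.KF
open Pool.Agent.PP.K9 Pool.Agent.PP.K9.H97 Pool.Agent.PP.H75 Pool.Agent.PP.T3 Pool.Agent.PP.SO
open Pool.Agent.PP.SD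

attribute [local instance] Ideal.Quotient.field

theorem fid (lad : LadStmt) (lbx : LbxStmt) (f3d : F3dStmt) (f2a : F2aStmt) (f2b : F2bStmt)
    (f2c : F2cStmt) (f2e : F2eStmt) (dix : DixStmt) : FidStmt := by
  intro ℓ hℓp M _ hM hℓ V₀ G _ _ _ _ E₀ A₁ A₂ hD B hB n m hPE ρ₁ ρ₂ x₁ x₂ c d hc hd hc1 hd1
    F₁₃ F₁₂ K hρ₁ hρ₂ hρA hFY hRel
  have hFX := hFY.toFX
  have hFq : Fq ℓ V₀ E₀ := hD.toFq
  have hSb : Sb ℓ M E₀ B := hB.toSb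
  obtain ⟨-, ⟨hA1, hA2, -, -, hA12, -, -⟩, -⟩ := dix ℓ V₀ E₀ A₁ A₂ hD
  have h11 : ρ₁ 1 = 0 := by
    have h := hρ₁ 1 1
    rw [mul_one] at h
    exact add_eq_left.1 h.symm
  have h21 : ρ₂ 1 = 0 := by
    have h := hρ₂ 1 1
    rw [mul_one] at h
    exact add_eq_left.1 h.symm
  have hfin : Finite (Set (SO.SS n V₀)) := inferInstance
  set v : ℚ := (x₁ c⁻¹ * x₂ d⁻¹ : ℤ) / (ℓ : ℚ) ^ 2 with hv
  set g : V₀ → V₀ → ℚ := fun κ₁ κ₂ => (x₁ κ₁ * x₂ κ₂ : ℤ) / (ℓ : ℚ) ^ 2 with hg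
  -- hypotheses of the parts
  have hz13 : ∀ τ : Set (SO.SS n V₀), (∀ s ∈ τ, s.2.2.1 ∈ A₂) ∨ (∀ s ∈ τ, s.2.2.2 ∈ A₂) →
      F₁₃ τ = 0 := by
    intro τ h
    refine hFX.z13 τ ?_
    rcases h with h | h
    · exact Or.inl fun s hs => (hρA _ (h s hs)).1
    · exact Or.inr fun s hs => (hρA _ (h s hs)).2
  have h1v : ∀ τ : Set (SO.SS n V₀), (∀ s ∈ τ, s.2.2.1 = 1 ∧ s.2.2.2 = 1) → F₁₂ τ = v := by
    intro τ h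
    refine hFX.z12 τ (fun s hs _ _ => h s hs) fun s hs => ?_
    rw [(h s hs).1, (h s hs).2]
    exact ⟨h11, h21⟩
  have hn1 : 1 < n := by
    obtain ⟨r, hr, hnr⟩ := hPE.pw
    rw [hnr]
    exact Nat.one_lt_pow hr.ne' hℓp.out.one_lt
  have hgv : ∀ (κ₁ κ₂ : V₀) (I : Set (Fin n)), (∃ i ∈ I, (i : ℕ) = 0) →
      F₁₂ {s | s.1 ∈ I ∧ s.2.2.1 = κ₁ ^ (s.2.1 : ℕ) ∧ s.2.2.2 = κ₂ ^ (s.2.1 : ℕ)} =
        v - g κ₁ κ₂ := by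
    intro κ₁ κ₂ I hI
    obtain ⟨i₀, hi₀, hi0⟩ := hI
    rw [hFX.prod]
    · rw [hFX.K1 _ κ₁ κ₂]
      · refine ⟨(⟨1, hn1⟩, κ₁, κ₂), ⟨(i₀, ⟨1, hn1⟩, κ₁, κ₂), ⟨hi₀, ?_, ?_⟩, rfl⟩, rfl⟩
        · exact (pow_one κ₁).symm
        · exact (pow_one κ₂).symm
      · rintro u ⟨s, ⟨-, h2, h3⟩, rfl⟩ hu
        rw [hu, pow_one] at h2 h3
        exact Prod.ext h2 h3
    · rintro s ⟨-, h2, h3⟩ - h5
      rw [h5, pow_zero] at h2 h3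
      exact ⟨h2, h3⟩
    · rintro s ⟨-, h2, h3⟩
      exact ⟨(i₀, s.2), ⟨hi₀, h2, h3⟩, hi0, rfl⟩
    · rintro s ⟨-, h2, h3⟩ h5
      rw [h5, pow_zero] at h2 h3
      rw [h2, h3]
      exact ⟨h11, h21⟩
  have hA2v : ∀ τ : Set (SO.SS n V₀), Fre τ → (∀ s ∈ τ, s.2.2.1 ∈ A₂ ∧ s.2.2.2 ∈ A₂) →
      F₁₂ τ = v := by
    intro τ hτ h
    exact hFX.z12 τ hτ fun s hs => ⟨(hρA _ (h s hs).1).1, (hρA _ (h s hs).2).2⟩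
  -- the sums
  have hTS := lad ℓ M hM hℓ V₀ G E₀ hFq B hB n m c d hc1 hd1 F₁₃ F₁₂ hRel
  rw [lbx ℓ M hM hℓ V₀ G E₀ hFq B hSb n m c d hc1 hd1 F₁₃ F₁₂] at hTS
  have e3 := f3d ℓ M hM hℓ V₀ G E₀ A₁ A₂ hD B hB n m hPE c d hc hd hc1 hd1 F₁₃ hz13
  have eA := f2a ℓ M hM hℓ V₀ G E₀ hFq B hSb n m hPE c d hc1 hd1 F₁₂ v h1v
  have eB := f2b ℓ M hM hℓ V₀ G E₀ A₁ A₂ hD B hSb n m hPE c d hc hd hc1 hd1 F₁₂ v g h1v hgv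
  have eC := f2c ℓ M hM hℓ V₀ G E₀ A₁ A₂ hD B hSb n m hPE c d hc hd hc1 hd1 F₁₂ v
    (fun τ hτ => (hFX.nf τ hτ).2) hA2v
  have eE := f2e ℓ M hM hℓ V₀ G E₀ A₁ A₂ hD B hB n m hPE c d hc hd hc1 hd1 F₁₂
  set T : Set (SO.SS n V₀) → ℂ := fun L => (mob F₁₂ L : ℚ) *
    ((kf E₀ (pL L) c * kf E₀ (qL L) d : ℚ) : ℂ) * W12 B m c d L with hT
  have hsplit : ∑ᶠ L : Set (SO.SS n V₀), T L =
      ∑ᶠ L ∈ {L : Set (SO.SS n V₀) | pL L = ⊥}, T L +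
      ∑ᶠ L ∈ {L : Set (SO.SS n V₀) | pL L = A₁}, T L +
      ∑ᶠ L ∈ {L : Set (SO.SS n V₀) | pL L = A₂}, T L +
      ∑ᶠ L ∈ {L : Set (SO.SS n V₀) | Of A₁ A₂ (pL L)}, T L := by
    simp only [finsum_mem_def]
    rw [← finsum_add_distrib (Set.toFinite _) (Set.toFinite _),
      ← finsum_add_distrib (Set.toFinite _) (Set.toFinite _),
      ← finsum_add_distrib (Set.toFinite _) (Set.toFinite _)]
    refine finsum_congr fun L => ?_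
    classical
    simp only [Set.indicator_apply, Set.mem_ofPred_eq]
    by_cases h0 : pL L = ⊥
    · have h1 : pL L ≠ A₁ := fun h => hA1 (h ▸ h0)
      have h2 : pL L ≠ A₂ := fun h => hA2 (h ▸ h0)
      have h3 : ¬ Of A₁ A₂ (pL L) := fun h => h.1 h0
      rw [if_pos h0, if_neg h1, if_neg h2, if_neg h3, add_zero, add_zero, add_zero]
    by_cases h1 : pL L = A₁
    · have h2 : pL L ≠ A₂ := fun h => hA12 (h1.symm.trans h)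
      have h3 : ¬ Of A₁ A₂ (pL L) := fun h => h.2.1 h1
      rw [if_neg h0, if_pos h1, if_neg h2, if_neg h3, add_zero, add_zero, zero_add]
    by_cases h2 : pL L = A₂
    · have h3 : ¬ Of A₁ A₂ (pL L) := fun h => h.2.2 h2
      rw [if_neg h0, if_neg h1, if_pos h2, if_neg h3, add_zero, add_zero, zero_add]
    · have h3 : Of A₁ A₂ (pL L) := ⟨h0, h1, h2⟩
      rw [if_neg h0, if_neg h1, if_neg h2, if_pos h3, add_zero, add_zero, zero_add]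
  rw [finsum_add_distrib (Set.toFinite _) (Set.toFinite _)] at hTS
  have hTS2 := hTS
  rw [e3, hsplit, eA, eB, eC, eE] at hTS2
  have hgoal : MN E₀ ℓ B x₁ x₂ c d + ((kE E₀ c : ℂ) * kE E₀ d)⁻¹ *
      ((PX13 E₀ A₁ A₂ B.U c d F₁₃ + PX12 E₀ A₁ A₂ B.U c d F₁₂ : ℚ) : ℂ) +
    (AX1 A₁ B m c d F₁₃ + AX2 E₀ A₁ B m c d F₁₂ + AX3 E₀ A₂ B m c d F₁₂ +
      AX4 E₀ A₂ B m c d F₁₂ + AX5 E₀ A₂ B.U B m c d F₁₂) =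
    ((kE E₀ c : ℂ) * kE E₀ d)⁻¹ * ((PX13 E₀ A₁ A₂ B.U c d F₁₃ : ℚ) : ℂ) + AX1 A₁ B m c d F₁₃ +
    (v * L2 B c d + (-((kE E₀ c : ℂ)⁻¹ * ∑ᶠ σ ∈ {σ : MulAut V₀ | σ ∈ E₀ ∧ c * σ d ≠ 1},
      (g (c * σ d)⁻¹ (σ⁻¹ (c * σ d))⁻¹ : ℚ) * L1 B (c * σ d)) + AX2 E₀ A₁ B m c d F₁₂) +
      AX3 E₀ A₂ B m c d F₁₂ + (((kE E₀ c : ℂ) * kE E₀ d)⁻¹ *
        ((PX12 E₀ A₁ A₂ B.U c d F₁₂ : ℚ) : ℂ) + AX4 E₀ A₂ B m c d F₁₂ +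
        AX5 E₀ A₂ B.U B m c d F₁₂)) := by
    unfold MN
    have hv2 : (v : ℂ) = ((x₁ c⁻¹ * x₂ d⁻¹ : ℤ) : ℂ) / ℓ ^ 2 := by
      rw [hv]
      push_cast
      ring
    have hg2 : ∀ κ₁ κ₂ : V₀, (g κ₁ κ₂ : ℂ) = ((x₁ κ₁ * x₂ κ₂ : ℤ) : ℂ) / ℓ ^ 2 := by
      intro κ₁ κ₂
      simp only [hg]
      push_cast
      ring
    simp only [hg2]
    rw [hv2]
    push_cast
    ring
  rw [hgoal]
  exact hTS2

end Pool.Agent.PP.SD.H86
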